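import Pool.Agent.H37.CNX.Stmts

set_option autoImplicit false

namespace Pool.CND

open Finset

namespace XT1

/-- the additive polynomial is monic of degree `p ^ d`, its derivative is the constant `e 0` -/
theorem addpol (p d : ℕ) (k : Type) [Field k] [CharP k p] (e : ℕ → k) (hp : p.Prime)
    (hd : e d = 1) :
    (∑ j ∈ range (d + 1), Polynomial.C (e j) * Polynomial.X ^ (p ^ j) : Polynomial k).Monic ∧
    (∑ j ∈ range (d + 1), Polynomial.C (e j) * Polynomial.X ^ (p ^ j) :
      Polynomial k).natDegree = p ^ d ∧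
    Polynomial.derivative (∑ j ∈ range (d + 1), Polynomial.C (e j) * Polynomial.X ^ (p ^ j) :
      Polynomial k) = Polynomial.C (e 0) := by
  have hlt : (∑ j ∈ range d, Polynomial.C (e j) * Polynomial.X ^ (p ^ j) : Polynomial k).degree <
      ((p ^ d : ℕ) : WithBot ℕ) := by
    refine lt_of_le_of_lt (Polynomial.degree_sum_le _ _) ?_
    rw [Finset.sup_lt_iff (WithBot.bot_lt_coe _)]
    intro j hj
    refine lt_of_le_of_lt (Polynomial.degree_C_mul_X_pow_le _ _) ?_
    exact_mod_cast Nat.pow_lt_pow_right hp.one_lt (Finset.mem_range.1 hj)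
  have hA : (∑ j ∈ range (d + 1), Polynomial.C (e j) * Polynomial.X ^ (p ^ j) : Polynomial k) =
      Polynomial.X ^ (p ^ d) + ∑ j ∈ range d, Polynomial.C (e j) * Polynomial.X ^ (p ^ j) := by
    rw [Finset.sum_range_succ, hd, Polynomial.C_1, one_mul, add_comm]
  have hm : (∑ j ∈ range (d + 1), Polynomial.C (e j) * Polynomial.X ^ (p ^ j) :
      Polynomial k).Monic := by
    rw [hA]
    exact Polynomial.monic_X_pow_add hlt
  refine ⟨hm, ?_, ?_⟩
  · rw [hA]
    apply Polynomial.natDegree_eq_of_degree_eq_some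
    rw [Polynomial.degree_add_eq_left_of_degree_lt (by rw [Polynomial.degree_X_pow]; exact hlt),
      Polynomial.degree_X_pow]
  · rw [Polynomial.derivative_sum, Finset.sum_range_succ']
    have h0 : ∀ j ∈ range d, Polynomial.derivative
        (Polynomial.C (e (j + 1)) * Polynomial.X ^ (p ^ (j + 1)) : Polynomial k) = 0 := by
      intro j _
      rw [Polynomial.derivative_C_mul, Polynomial.derivative_X_pow]
      have : ((p ^ (j + 1) : ℕ) : k) = 0 := by
        rw [Nat.cast_pow, CharP.cast_eq_zero k p, zero_pow (by omega)]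
      rw [this, Polynomial.C_0, zero_mul, mul_zero]
    rw [Finset.sum_eq_zero h0, zero_add, pow_zero, pow_one, Polynomial.derivative_C_mul,
      Polynomial.derivative_X, mul_one]

end XT1

theorem xt1_thm : S_XT1 := by
  intro p d k _ _ _ e a α g A hp hed he0 hA hd ha hpa hα hg r hr
  have hpp := hp.two_le
  obtain ⟨hm, hdeg, hder⟩ := XT1.addpol p d k e hp hed
  rw [← hA] at hm hdeg hder
  have hPd : 2 ≤ p ^ d := le_trans hpp (Nat.le_self_pow (by omega) p)
  have hak : (a : k) ≠ 0 := fun h0 => hpa ((CharP.cast_eq_zero_iff k p a).1 h0)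
  -- the degree of `r`
  have hL : (Polynomial.C α * A ^ a + g).natDegree ≤ p ^ d * a := by
    refine (Polynomial.natDegree_add_le _ _).trans (max_le ?_ ?_)
    · refine (Polynomial.natDegree_C_mul_le _ _).trans ?_
      rw [hm.natDegree_pow, hdeg, mul_comm]
    · have : p ^ d * (a - 1) + 1 ≤ p ^ d * a := by
        obtain ⟨b, rfl⟩ : ∃ b, a = b + 1 := ⟨a - 1, by omega⟩
        rw [Nat.add_sub_cancel, Nat.mul_succ]
        omega
      omega
  have hrd : r.natDegree ≤ p ^ d * (a - 1) := by
    by_contra hcon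
    push Not at hcon
    have h1 : 1 ≤ r.natDegree := by omega
    have h2 : (r ^ p - r).natDegree = p * r.natDegree := by
      have : (r ^ p - r).natDegree = (r ^ p).natDegree := by
        apply Polynomial.natDegree_sub_eq_left_of_natDegree_lt
        rw [Polynomial.natDegree_pow]
        nlinarith
      rw [this, Polynomial.natDegree_pow]
    rw [hr, h2] at hL
    have h3 : p * (p ^ d * (a - 1) + 1) ≤ p * r.natDegree := Nat.mul_le_mul_left _ hcon
    have h4 : 2 * (p ^ d * (a - 1) + 1) ≤ p * (p ^ d * (a - 1) + 1) := Nat.mul_le_mul_right _ hpp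
    have h5 : p ^ d * a ≤ 2 * (p ^ d * (a - 1)) := by
      obtain ⟨b, rfl⟩ : ∃ b, a = b + 1 := ⟨a - 1, by omega⟩
      rw [Nat.add_sub_cancel, Nat.mul_succ]
      have : p ^ d * 1 ≤ p ^ d * b := Nat.mul_le_mul_left _ (by omega)
      omega
    omega
  -- compare derivatives
  have h6 := congrArg (fun P => (Polynomial.derivative P).coeff (p ^ d * (a - 1))) hr
  simp only [Polynomial.derivative_add, Polynomial.derivative_sub, Polynomial.coeff_add,
    Polynomial.coeff_sub, Polynomial.derivative_C_mul, Polynomial.derivative_pow, hder,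
    Polynomial.coeff_C_mul] at h6
  have hpC : (Polynomial.C ((p : ℕ) : k) : Polynomial k) = 0 := by
    rw [CharP.cast_eq_zero k p, Polynomial.C_0]
  have h7 : (Polynomial.derivative g).coeff (p ^ d * (a - 1)) = 0 := by
    rw [Polynomial.coeff_derivative, Polynomial.coeff_eq_zero_of_natDegree_lt hg, zero_mul]
  have h8 : (Polynomial.derivative r).coeff (p ^ d * (a - 1)) = 0 := by
    rw [Polynomial.coeff_derivative, Polynomial.coeff_eq_zero_of_natDegree_lt (by omega), zero_mul]
  have h9 : (A ^ (a - 1)).coeff (p ^ d * (a - 1)) = 1 := by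
    have := (hm.pow (a - 1)).coeff_natDegree
    rwa [hm.natDegree_pow, hdeg, mul_comm] at this
  rw [hpC, zero_mul, zero_mul, Polynomial.coeff_zero, h7, h8, Polynomial.coeff_mul_C,
    Polynomial.coeff_C_mul, h9] at h6
  apply mul_ne_zero (mul_ne_zero hα hak) he0
  linear_combination h6

end Pool.CND
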